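import Pool.Agent.WL.ALL2

/-!
# MP_f9bf63_ag: weak approximation, free lines and general hypersurfaces
-/

set_option autoImplicit false

open MvPolynomial

namespace Pool.Agent.Results.MP_f9bf63_ag.FreeLinesWeakApprox

/-- The hypersurface `F = 0` is smooth (Jacobian criterion over an algebraic closure). -/
def Smooth {K : Type} [Field K] {n : ℕ} (F : MvPolynomial (Fin (n + 1)) K) : Prop :=
  ∀ x : Fin (n + 1) → AlgebraicClosure K, x ≠ 0 → aeval x F = 0 → ∃ i, aeval x (pderiv i F) ≠ 0

/-- Weak approximation for the hypersurface `F = 0` at every finite set of places, exactly as in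
S00561: for pairwise inequivalent nontrivial discrete valuations `v j` that are trivial on `k`,
points `x j` over the completions and open sets `U j` around them, some point `y` over `K` lies in
all `U j` (in homogeneous coordinates, up to a nonzero factor). -/
def WeakApprox (k : Type) [Field k] (K : Type) [Field K] [Algebra (RatFunc k) K] {n : ℕ}
    (F : MvPolynomial (Fin (n + 1)) K) : Prop :=
  ∀ (m : ℕ) (v : Fin m → Valuation K (WithZero (Multiplicative ℤ))),
    (∀ j, ∃ a : K, v j a ≠ 0 ∧ v j a ≠ 1) →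
    (∀ j (c : k), c ≠ 0 → v j (algebraMap (RatFunc k) K (RatFunc.C c)) = 1) →
    (∀ i j, i ≠ j → ¬ (v i).IsEquiv (v j)) →
    ∀ (x : ∀ j, Fin (n + 1) → UniformSpace.Completion (WithVal (v j))),
    (∀ j, x j ≠ 0 ∧
      MvPolynomial.eval₂
        ((UniformSpace.Completion.coeRingHom : WithVal (v j) →+* _).comp
          (WithVal.equiv (v j)).symm.toRingHom) (x j) F = 0) →
    ∀ (U : ∀ j, Set (Fin (n + 1) → UniformSpace.Completion (WithVal (v j)))),
    (∀ j, IsOpen (U j) ∧ x j ∈ U j) →
    ∃ y : Fin (n + 1) → K, y ≠ 0 ∧ MvPolynomial.eval y F = 0 ∧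
      ∀ j, ∃ c : UniformSpace.Completion (WithVal (v j)), c ≠ 0 ∧
        (fun i => c * ((UniformSpace.Completion.coeRingHom : WithVal (v j) →+* _).comp
          (WithVal.equiv (v j)).symm.toRingHom) (y i)) ∈ U j

/-- Some point `x₀` of `F = 0` over an algebraic closure lies on free lines only: for every line
`x₀ + t w` in `F = 0` the combinations `∑ i, u i * (pderiv i F) (x₀ + X w)` give all polynomials
of degree less than `d`. -/
def HasPointWithFreeLines {K : Type} [Field K] {n : ℕ} (F : MvPolynomial (Fin (n + 1)) K)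
    (d : ℕ) : Prop :=
  ∃ x₀ : Fin (n + 1) → AlgebraicClosure K, x₀ ≠ 0 ∧ aeval x₀ F = 0 ∧
    ∀ w : Fin (n + 1) → AlgebraicClosure K, (∀ c : AlgebraicClosure K, w ≠ c • x₀) →
      (∀ t : AlgebraicClosure K, aeval (x₀ + t • w) F = 0) →
      ∀ g : Polynomial (AlgebraicClosure K), g.natDegree < d →
        ∃ u : Fin (n + 1) → AlgebraicClosure K, ∑ i, Polynomial.C (u i) *
          aeval (fun j => Polynomial.C (x₀ j) + Polynomial.X * Polynomial.C (w j))
            (pderiv i F) = g

/-- For `d ^ 2 ≤ n` and every prime `p` there is a nonzero polynomial `Δ` over the prime field in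
the coefficients of forms of degree `d` such that a smooth hypersurface `F = 0` over a function
field of a curve over an algebraically closed field of characteristic `p` satisfies weak
approximation at every finite set of places if `Δ (F) ≠ 0` or if all lines through one of its
points are free. -/
theorem result :
    ∀ n d : ℕ, 1 ≤ d → d ^ 2 ≤ n → ∀ (p : ℕ) [Fact p.Prime],
      ∃ Δ : MvPolynomial {μ : Fin (n + 1) →₀ ℕ // ∑ i, μ i = d} (ZMod p), Δ ≠ 0 ∧
      ∀ (k : Type) [Field k] [IsAlgClosed k] [CharP k p]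
      (K : Type) [Field K] [Algebra (RatFunc k) K] [FiniteDimensional (RatFunc k) K]
      (F : MvPolynomial (Fin (n + 1)) K), F.IsHomogeneous d → Smooth F →
      ((∀ φ : ZMod p →+* K, eval₂ φ (fun μ => F.coeff μ.1) Δ ≠ 0) ∨
        HasPointWithFreeLines F d) → WeakApprox k K F := by
  intro n d hd hn p _
  obtain ⟨Δ, hΔ, h⟩ := WL.third WL.a_WA2 WL.p_FIN WL.a_GPT WL.a_UNI WL.p_DIVR n d hd hn p
  refine ⟨Δ, hΔ, ?_⟩
  intro k _ _ _ K _ _ _ F hF hsm hor
  rcases hor with hgen | hfree
  · exact h k K F hF hsm hgen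
  · exact WL.first WL.a_WA2 WL.p_FIN WL.a_GOOD WL.a_RANK k K n d F hd hn hF hsm hfree

end Pool.Agent.Results.MP_f9bf63_ag.FreeLinesWeakApprox
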