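import Pool.Agent.WL.ALL2

/-!
# MP_f9bf63_ag: weak approximation in large characteristic
-/

set_option autoImplicit false

open MvPolynomial

namespace Pool.Agent.Results.MP_f9bf63_ag.LargeCharWeakApprox

/-- The hypersurface `F = 0` is smooth (Jacobian criterion over an algebraic closure). -/
def Smooth {K : Type} [Field K] {n : ℕ} (F : MvPolynomial (Fin (n + 1)) K) : Prop :=
  ∀ x : Fin (n + 1) → AlgebraicClosure K, x ≠ 0 → aeval x F = 0 → ∃ i, aeval x (pderiv i F) ≠ 0

/-- Weak approximation for the hypersurface `F = 0` at every finite set of places, exactly as in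
S00561: for pairwise inequivalent nontrivial discrete valuations `v j` that are trivial on `k`,
points `x j` over the completions and open sets `U j` around them, some point `y` over `K` lies in
all `U j` (in homogeneous coordinates, up to a nonzero factor). -/
def WeakApprox (k : Type) [Field k] (K : Type) [Field K] [Algebra (RatFunc k) K] {n : ℕ}
    (F : MvPolynomial (Fin (n + 1)) K) : Prop :=
  ∀ (m : ℕ) (v : Fin m → Valuation K (WithZero (Multiplicative ℤ))),
    (∀ j, ∃ a : K, v j a ≠ 0 ∧ v j a ≠ 1) →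
    (∀ j (c : k), c ≠ 0 → v j (algebraMap (RatFunc k) K (RatFunc.C c)) = 1) →
    (∀ i j, i ≠ j → ¬ (v i).IsEquiv (v j)) →
    ∀ (x : ∀ j, Fin (n + 1) → UniformSpace.Completion (WithVal (v j))),
    (∀ j, x j ≠ 0 ∧
      MvPolynomial.eval₂
        ((UniformSpace.Completion.coeRingHom : WithVal (v j) →+* _).comp
          (WithVal.equiv (v j)).symm.toRingHom) (x j) F = 0) →
    ∀ (U : ∀ j, Set (Fin (n + 1) → UniformSpace.Completion (WithVal (v j)))),
    (∀ j, IsOpen (U j) ∧ x j ∈ U j) →
    ∃ y : Fin (n + 1) → K, y ≠ 0 ∧ MvPolynomial.eval y F = 0 ∧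
      ∀ j, ∃ c : UniformSpace.Completion (WithVal (v j)), c ≠ 0 ∧
        (fun i => c * ((UniformSpace.Completion.coeRingHom : WithVal (v j) →+* _).comp
          (WithVal.equiv (v j)).symm.toRingHom) (y i)) ∈ U j

/-- For every degree `d` there is `p₀` such that for every prime `p > p₀`, every algebraically
closed field `k` of characteristic `p`, every finite extension `K` of `k(t)` and every
`n ≥ d ^ 2`, all smooth hypersurfaces of degree `d` in projective `n`-space over `K` satisfy weak
approximation at every finite set of places. -/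
theorem result :
    ∀ d : ℕ, 1 ≤ d → ∃ p₀ : ℕ, ∀ (p : ℕ) [Fact p.Prime], p₀ < p →
      ∀ (k : Type) [Field k] [IsAlgClosed k] [CharP k p]
      (K : Type) [Field K] [Algebra (RatFunc k) K] [FiniteDimensional (RatFunc k) K]
      (n : ℕ), d ^ 2 ≤ n → ∀ F : MvPolynomial (Fin (n + 1)) K, F.IsHomogeneous d →
      Smooth F → WeakApprox k K F := by
  intro d hd
  obtain ⟨p₀, h⟩ := WL.second' WL.a_WA2 WL.p_FIN WL.a_GOOD WL.a_LARGE WL.a_RED WL.p_ONE d hd
  refine ⟨p₀, ?_⟩
  intro p _ hp k _ _ _ K _ _ _ n hn F hF hsm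
  exact h p hp k K n hn F hF hsm

end Pool.Agent.Results.MP_f9bf63_ag.LargeCharWeakApprox
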