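import Mathlib
import Pool.Agent.WA.Final

set_option autoImplicit false

namespace Pool.Agent.Results.MP_f9bf63_ag.LowDegreeWeakApprox

/-- Weak approximation at any finitely many places for every smooth hypersurface of degree `d` in
`P^n` over the function field of a curve over an algebraically closed field of characteristic `p`,
as soon as `n ≥ C(2d, d+1) + C(2d-1, d)`. -/
theorem result :
    ∀ (p : ℕ) [Fact p.Prime] (k : Type) [Field k] [IsAlgClosed k] [CharP k p]
      (K : Type) [Field K] [Algebra (RatFunc k) K] [FiniteDimensional (RatFunc k) K]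
      (n d : ℕ) (F : MvPolynomial (Fin (n + 1)) K),
      1 ≤ d → (2 * d).choose (d + 1) + (2 * d - 1).choose d ≤ n → F.IsHomogeneous d →
      (∀ x : Fin (n + 1) → AlgebraicClosure K, x ≠ 0 → MvPolynomial.aeval x F = 0 →
        ∃ i, MvPolynomial.aeval x (MvPolynomial.pderiv i F) ≠ 0) →
      ∀ (m : ℕ) (v : Fin m → Valuation K (WithZero (Multiplicative ℤ))),
      (∀ j, ∃ a : K, v j a ≠ 0 ∧ v j a ≠ 1) →
      (∀ j (c : k), c ≠ 0 → v j (algebraMap (RatFunc k) K (RatFunc.C c)) = 1) →
      (∀ i j, i ≠ j → ¬ (v i).IsEquiv (v j)) →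
      ∀ (x : ∀ j, Fin (n + 1) → UniformSpace.Completion (WithVal (v j))),
      (∀ j, x j ≠ 0 ∧
        MvPolynomial.eval₂
          ((UniformSpace.Completion.coeRingHom : WithVal (v j) →+* _).comp
            (WithVal.equiv (v j)).symm.toRingHom) (x j) F = 0) →
      ∀ (U : ∀ j, Set (Fin (n + 1) → UniformSpace.Completion (WithVal (v j)))),
      (∀ j, IsOpen (U j) ∧ x j ∈ U j) →
      ∃ y : Fin (n + 1) → K, y ≠ 0 ∧ MvPolynomial.eval y F = 0 ∧
        ∀ j, ∃ c : UniformSpace.Completion (WithVal (v j)), c ≠ 0 ∧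
          (fun i => c * ((UniformSpace.Completion.coeRingHom : WithVal (v j) →+* _).comp
            (WithVal.equiv (v j)).symm.toRingHom) (y i)) ∈ U j := by
  intro p _ k _ _ _ K _ _ _ n d F hd hn hF hsm m v hnt _ hne x hx U hU
  have hinf : Infinite K := by
    have h1 : Infinite k := IsAlgClosed.instInfinite
    have h2 : Function.Injective (algebraMap k (RatFunc k)) := (algebraMap k (RatFunc k)).injective
    exact Infinite.of_injective _ ((algebraMap (RatFunc k) K).injective.comp h2)
  exact Pool.Agent.WA.weak_approximation (Pool.Agent.WA.C1.functionField k K) n d F hd hn hF hsm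
    m v hnt hne x hx U hU

end Pool.Agent.Results.MP_f9bf63_ag.LowDegreeWeakApprox
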